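import Mathlib

/-!
# The weak Shanks conjecture on the bidisk fails

For `f = (3 + z₁ + z₂ + 2 z₁ z₂)³`, which has no zeros on the closed bidisk, the optimal
polynomial approximant of `1 / f` in `H²(𝔻²)` of index `2`, that is, in the span of `1, z₁, z₂`, is a
multiple of `1 - (2980 / 5883) (z₁ + z₂)`, and it vanishes at
`z₁ = z₂ = 5883 / 5960`.
-/

set_option autoImplicit false

namespace Pool.Agent.Results.MP_52e642_an.WeakShanksFails

open MvPolynomial Finset

/-- The position (starting with `0`) of the monomial `z₁ ^ (m 0) z₂ ^ (m 1)` in the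
degree-lexicographic ordering `1, z₁, z₂, z₁², z₁z₂, z₂², …`: it is preceded by the monomials of
smaller total degree and by the `m 1` monomials of the same degree with a larger power of `z₁`. -/
def position (m : Fin 2 →₀ ℕ) : ℕ := (m 0 + m 1) * (m 0 + m 1 + 1) / 2 + m 1

/-- `p ∈ 𝓟_n`: only the first `n + 1` monomials occur in `p`. -/
def InP (n : ℕ) (p : MvPolynomial (Fin 2) ℂ) : Prop := ∀ m, coeff m p ≠ 0 → position m ≤ n

/-- The square of the norm of `H²(𝔻²)` of a polynomial. -/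
noncomputable def normSq (g : MvPolynomial (Fin 2) ℂ) : ℝ := ∑ m ∈ g.support, ‖coeff m g‖ ^ 2

/-- `q` is the `n`-th optimal polynomial approximant of `1 / f` in `H²(𝔻²)`. -/
def IsApproximant (f : MvPolynomial (Fin 2) ℂ) (n : ℕ) (q : MvPolynomial (Fin 2) ℂ) : Prop :=
  InP n q ∧ ∀ p, InP n p → normSq (q * f - 1) ≤ normSq (p * f - 1)

/-! ### Coefficients -/

/-- exponents -/
noncomputable def mm (j k : ℕ) : Fin 2 →₀ ℕ := Finsupp.single 0 j + Finsupp.single 1 k

theorem mm_zero (j k : ℕ) : mm j k 0 = j := by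
  simp [mm]

theorem mm_one (j k : ℕ) : mm j k 1 = k := by
  simp [mm]

theorem mm_self (m : Fin 2 →₀ ℕ) : mm (m 0) (m 1) = m := by
  ext i
  fin_cases i
  · exact mm_zero _ _
  · exact mm_one _ _

theorem mm_inj {j k j' k' : ℕ} (h : mm j k = mm j' k') : j = j' ∧ k = k' := by
  constructor
  · rw [← mm_zero j k, h, mm_zero]
  · rw [← mm_one j k, h, mm_one]

theorem normSq_eq (g : MvPolynomial (Fin 2) ℂ) (N : ℕ)
    (h : ∀ m, coeff m g ≠ 0 → m 0 < N ∧ m 1 < N) :
    normSq g = ∑ j ∈ range N, ∑ k ∈ range N, ‖coeff (mm j k) g‖ ^ 2 := by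
  classical
  have h1 : g.support ⊆ (range N ×ˢ range N).image fun p => mm p.1 p.2 := by
    intro m hm
    rw [mem_support_iff] at hm
    obtain ⟨h2, h3⟩ := h m hm
    rw [mem_image]
    exact ⟨(m 0, m 1), mem_product.2 ⟨mem_range.2 h2, mem_range.2 h3⟩, mm_self m⟩
  unfold normSq
  rw [Finset.sum_subset h1, Finset.sum_image, Finset.sum_product]
  · rintro ⟨a, b⟩ _ ⟨c, d⟩ _ h4
    obtain ⟨h5, h6⟩ := mm_inj h4
    exact Prod.ext h5 h6
  · intro m _ hm
    rw [notMem_support_iff] at hm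
    rw [hm]
    simp

/-- the table of coefficients of `(3 + z₁ + z₂ + 2 z₁ z₂)³` -/
def F : ℕ → ℕ → ℂ
  | 0, 0 => 27 | 0, 1 => 27 | 0, 2 => 9 | 0, 3 => 1
  | 1, 0 => 27 | 1, 1 => 72 | 1, 2 => 39 | 1, 3 => 6
  | 2, 0 => 9 | 2, 1 => 39 | 2, 2 => 48 | 2, 3 => 12
  | 3, 0 => 1 | 3, 1 => 6 | 3, 2 => 12 | 3, 3 => 8
  | _, _ => 0

/-- the polynomial `(3 + z₁ + z₂ + 2 z₁ z₂)³` -/
noncomputable def f : MvPolynomial (Fin 2) ℂ := (3 + X 0 + X 1 + 2 * X 0 * X 1) ^ 3

theorem f_eq : f = ∑ j ∈ range 4, ∑ k ∈ range 4, monomial (mm j k) (F j k) := by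
  have h1 : ∀ (j k : ℕ) (c : ℂ), monomial (mm j k) c = C c * (X 0 ^ j * X 1 ^ k) := by
    intro j k c
    rw [mm, monomial_add_single, ← C_mul_X_pow_eq_monomial, mul_assoc]
  simp only [h1, Finset.sum_range_succ, Finset.sum_range_zero, F, f]
  simp only [map_ofNat, map_one, zero_add]
  ring

theorem coeff_f (m : Fin 2 →₀ ℕ) : coeff m f = F (m 0) (m 1) := by
  classical
  rw [f_eq, coeff_sum]
  simp only [coeff_sum, coeff_monomial]
  by_cases h : m 0 < 4 ∧ m 1 < 4
  · rw [Finset.sum_eq_single (m 0), Finset.sum_eq_single (m 1), if_pos (mm_self m)]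
    · intro b _ hb
      rw [if_neg]
      intro h1
      rw [← mm_self m] at h1
      exact hb (mm_inj h1).2
    · intro h1
      exact absurd (mem_range.2 h.2) h1
    · intro b _ hb
      refine Finset.sum_eq_zero fun c _ => ?_
      rw [if_neg]
      intro h1
      rw [← mm_self m] at h1
      exact hb (mm_inj h1).1
    · intro h1
      exact absurd (mem_range.2 h.1) h1
  · have h2 : F (m 0) (m 1) = 0 := by
      rw [not_and_or, not_lt, not_lt] at h
      rcases h with h | h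
      · obtain ⟨a, ha⟩ := Nat.exists_eq_add_of_le h
        rw [ha, add_comm]
        rfl
      · obtain ⟨b, hb⟩ := Nat.exists_eq_add_of_le h
        rw [hb, add_comm]
        rcases m 0 with _ | _ | _ | _ | _ <;> rfl
    rw [h2]
    refine Finset.sum_eq_zero fun b hb => Finset.sum_eq_zero fun c hc => ?_
    rw [if_neg]
    intro h1
    apply h
    rw [← h1, mm_zero, mm_one]
    exact ⟨mem_range.1 hb, mem_range.1 hc⟩

/-- coefficients of `z₁ f` and `z₂ f` -/
def F1 : ℕ → ℕ → ℂ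
  | 0, _ => 0
  | j + 1, k => F j k

def F2 : ℕ → ℕ → ℂ
  | _, 0 => 0
  | j, k + 1 => F j k

theorem coeff_X0 (m : Fin 2 →₀ ℕ) : coeff m (X 0 * f) = F1 (m 0) (m 1) := by
  classical
  rw [coeff_X_mul']
  by_cases h : (0 : Fin 2) ∈ m.support
  · rw [if_pos h, coeff_f]
    have h1 : m 0 ≠ 0 := by simpa using h
    obtain ⟨a, ha⟩ := Nat.exists_eq_succ_of_ne_zero h1
    simp [ha, F1]
  · rw [if_neg h]
    have h1 : m 0 = 0 := by simpa using h
    rw [h1]
    rfl

theorem coeff_X1 (m : Fin 2 →₀ ℕ) : coeff m (X 1 * f) = F2 (m 0) (m 1) := by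
  classical
  rw [coeff_X_mul']
  by_cases h : (1 : Fin 2) ∈ m.support
  · rw [if_pos h, coeff_f]
    have h1 : m 1 ≠ 0 := by simpa using h
    obtain ⟨a, ha⟩ := Nat.exists_eq_succ_of_ne_zero h1
    simp [ha, F2]
  · rw [if_neg h]
    have h1 : m 1 = 0 := by simpa using h
    rw [h1]
    rfl

/-- coefficients of `(a + b z₁ + c z₂) f - 1` -/
noncomputable def G (a b c : ℂ) (j k : ℕ) : ℂ :=
  a * F j k + b * F1 j k + c * F2 j k - if j = 0 ∧ k = 0 then 1 else 0

/-- `a + b z₁ + c z₂` -/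
noncomputable def lin (a b c : ℂ) : MvPolynomial (Fin 2) ℂ := C a + C b * X 0 + C c * X 1

theorem coeff_lin (a b c : ℂ) (m : Fin 2 →₀ ℕ) :
    coeff m (lin a b c * f - 1) = G a b c (m 0) (m 1) := by
  classical
  have h1 : lin a b c * f - 1 = C a * f + C b * (X 0 * f) + C c * (X 1 * f) - 1 := by
    rw [lin]; ring
  rw [h1, coeff_sub, coeff_add, coeff_add, coeff_C_mul, coeff_C_mul, coeff_C_mul, coeff_f,
    coeff_X0, coeff_X1, coeff_one, G]
  congr 1
  by_cases h : m = 0
  · rw [h]; simp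
  · rw [if_neg (fun h2 => h h2.symm), if_neg]
    rintro ⟨h2, h3⟩
    apply h
    rw [← mm_self m, h2, h3]
    simp [mm]

theorem G_zero {a b c : ℂ} {j k : ℕ} (h : ¬ (j < 5 ∧ k < 5)) : G a b c j k = 0 := by
  rw [not_and_or, not_lt, not_lt] at h
  rcases h with h | h
  · obtain ⟨i, hi⟩ := Nat.exists_eq_add_of_le h
    rw [hi, add_comm]
    have h1 : F (i + 5) k = 0 := rfl
    have h2 : F1 (i + 5) k = 0 := rfl
    have h3 : F2 (i + 5) k = 0 := by
      rcases k with _ | k
      · rfl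
      · rfl
    rw [G, h1, h2, h3, if_neg (by omega)]
    ring
  · obtain ⟨i, hi⟩ := Nat.exists_eq_add_of_le h
    rw [hi, add_comm]
    have h1 : F j (i + 5) = 0 := by rcases j with _ | _ | _ | _ | _ <;> rfl
    have h2 : F1 j (i + 5) = 0 := by rcases j with _ | _ | _ | _ | _ | _ <;> rfl
    have h3 : F2 j (i + 5) = 0 := by rcases j with _ | _ | _ | _ | _ <;> rfl
    rw [G, h1, h2, h3, if_neg (by omega)]
    ring

/-- the functional to be minimised -/
noncomputable def Q (a b c : ℂ) : ℝ := ∑ j ∈ range 5, ∑ k ∈ range 5, ‖G a b c j k‖ ^ 2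

theorem normSq_lin (a b c : ℂ) : normSq (lin a b c * f - 1) = Q a b c := by
  rw [normSq_eq _ 5]
  · simp only [coeff_lin, mm_zero, mm_one, Q]
  · intro m hm
    by_contra h
    exact hm (by rw [coeff_lin]; exact G_zero h)

/-- the remainder -/
noncomputable def R (x y z : ℂ) : ℝ :=
  ∑ j ∈ range 5, ∑ k ∈ range 5, ‖x * F j k + y * F1 j k + z * F2 j k‖ ^ 2

theorem Q_eq (x y z : ℂ) :
    Q (52947 / 8330305 + x) (-(26820 / 8330305) + y) (-(26820 / 8330305) + z) =
      Q (52947 / 8330305) (-(26820 / 8330305)) (-(26820 / 8330305)) + R x y z := by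
  obtain ⟨x1, hx1⟩ : ∃ x1, x1 = x.re := ⟨_, rfl⟩
  obtain ⟨x2, hx2⟩ : ∃ x2, x2 = x.im := ⟨_, rfl⟩
  obtain ⟨y1, hy1⟩ : ∃ y1, y1 = y.re := ⟨_, rfl⟩
  obtain ⟨y2, hy2⟩ : ∃ y2, y2 = y.im := ⟨_, rfl⟩
  obtain ⟨z1, hz1⟩ : ∃ z1, z1 = z.re := ⟨_, rfl⟩
  obtain ⟨z2, hz2⟩ : ∃ z2, z2 = z.im := ⟨_, rfl⟩
  have e1 : (52947 / 8330305 : ℂ) = ((52947 / 8330305 : ℝ) : ℂ) := by push_cast; ring
  have e2 : (26820 / 8330305 : ℂ) = ((26820 / 8330305 : ℝ) : ℂ) := by push_cast; ring
  rw [e1, e2]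
  unfold Q R G
  simp only [Finset.sum_range_succ, Finset.sum_range_zero, F, F1, F2, Complex.sq_norm,
    Complex.normSq_apply, Complex.add_re, Complex.add_im, Complex.sub_re, Complex.sub_im,
    Complex.mul_re, Complex.mul_im, Complex.neg_re, Complex.neg_im, Complex.ofReal_re,
    Complex.ofReal_im, Complex.re_ofNat, Complex.im_ofNat, Complex.one_re, Complex.one_im,
    Complex.zero_re, Complex.zero_im, and_self, and_true, true_and, and_false, false_and,
    if_true, if_false, OfNat.ofNat_ne_zero, one_ne_zero, ← hx1, ← hx2, ← hy1, ← hy2, ← hz1, ← hz2]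
  ring

theorem R_nonneg (x y z : ℂ) : 0 ≤ R x y z := by
  unfold R
  positivity

theorem R_eq_zero {x y z : ℂ} (h : R x y z = 0) : x = 0 ∧ y = 0 ∧ z = 0 := by
  unfold R at h
  rw [Finset.sum_eq_zero_iff_of_nonneg (fun j _ => by positivity)] at h
  have h1 : ∀ j < 5, ∀ k < 5, x * F j k + y * F1 j k + z * F2 j k = 0 := by
    intro j hj k hk
    have h2 := h j (mem_range.2 hj)
    rw [Finset.sum_eq_zero_iff_of_nonneg (fun k _ => by positivity)] at h2
    have h3 := h2 k (mem_range.2 hk)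
    exact norm_eq_zero.1 (pow_eq_zero_iff (by norm_num) |>.1 h3)
  have h00 := h1 0 (by norm_num) 0 (by norm_num)
  have h10 := h1 1 (by norm_num) 0 (by norm_num)
  have h01 := h1 0 (by norm_num) 1 (by norm_num)
  simp only [F, F1, F2, mul_zero, add_zero] at h00 h10 h01
  have hx : x = 0 := by
    rcases mul_eq_zero.1 h00 with h2 | h2
    · exact h2
    · norm_num at h2
  rw [hx] at h10 h01
  refine ⟨hx, ?_, ?_⟩
  · simp at h10; exact h10
  · simp at h01; exact h01

theorem f_ne {z : Fin 2 → ℂ} (hz : ∀ i, ‖z i‖ ≤ 1) : eval z f ≠ 0 := by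
  rw [f]
  simp only [map_pow, map_add, map_mul, eval_X, map_ofNat]
  apply pow_ne_zero
  intro h
  have h1 : 3 + z 0 = -(z 1 * (1 + 2 * z 0)) := by linear_combination h
  have h2 : ‖3 + z 0‖ ≤ ‖1 + 2 * z 0‖ := by
    rw [h1, norm_neg, norm_mul]
    calc ‖z 1‖ * ‖1 + 2 * z 0‖ ≤ 1 * ‖1 + 2 * z 0‖ :=
          mul_le_mul_of_nonneg_right (hz 1) (norm_nonneg _)
      _ = _ := one_mul _
  have h3 : ‖3 + z 0‖ ^ 2 ≤ ‖1 + 2 * z 0‖ ^ 2 := by
    apply pow_le_pow_left₀ (norm_nonneg _) h2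
  have h4 : ‖z 0‖ ^ 2 ≤ 1 := by
    have := hz 0
    nlinarith [norm_nonneg (z 0)]
  rw [Complex.sq_norm, Complex.normSq_apply] at h4
  rw [Complex.sq_norm, Complex.sq_norm, Complex.normSq_apply, Complex.normSq_apply] at h3
  simp at h3
  nlinarith [sq_nonneg ((z 0).re - 1), sq_nonneg ((z 0).re + 1), sq_nonneg (z 0).im]

theorem position_mm (j k : ℕ) : position (mm j k) = (j + k) * (j + k + 1) / 2 + k := by
  rw [position, mm_zero, mm_one]

theorem position_gt {m : Fin 2 →₀ ℕ} (h : 2 ≤ m 0 + m 1) : 2 < position m := by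
  rw [position]
  have h1 : 3 ≤ (m 0 + m 1) * (m 0 + m 1 + 1) / 2 := by
    rw [Nat.le_div_iff_mul_le (by norm_num)]
    nlinarith
  omega

theorem inP_lin (a b c : ℂ) : InP 2 (lin a b c) := by
  classical
  intro m hm
  by_contra h
  push Not at h
  apply hm
  have h0 : m ≠ 0 := by
    rintro rfl
    simp [position] at h
  have h1 : (Finsupp.single 0 1 : Fin 2 →₀ ℕ) ≠ m := by
    rintro rfl
    simp [position] at h
  have h2 : (Finsupp.single 1 1 : Fin 2 →₀ ℕ) ≠ m := by
    rintro rfl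
    simp [position] at h
  rw [lin, coeff_add, coeff_add, coeff_C_mul, coeff_C_mul, coeff_C, coeff_X, coeff_X,
    if_neg (Ne.symm h0), if_neg h1, if_neg h2]
  ring

theorem eq_lin {p : MvPolynomial (Fin 2) ℂ} (hp : InP 2 p) :
    p = lin (coeff 0 p) (coeff (Finsupp.single 0 1) p) (coeff (Finsupp.single 1 1) p) := by
  classical
  ext m
  have h00 : (0 : Fin 2 →₀ ℕ) ≠ Finsupp.single 0 1 := by
    intro h
    have := DFunLike.congr_fun h 0
    simp at this
  have h01 : (0 : Fin 2 →₀ ℕ) ≠ Finsupp.single 1 1 := by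
    intro h
    have := DFunLike.congr_fun h 1
    simp at this
  have h11 : (Finsupp.single 0 1 : Fin 2 →₀ ℕ) ≠ Finsupp.single 1 1 := by
    intro h
    have := DFunLike.congr_fun h 0
    simp at this
  rw [lin, coeff_add, coeff_add, coeff_C_mul, coeff_C_mul, coeff_C, coeff_X, coeff_X]
  by_cases h0 : m = 0
  · rw [h0, if_pos rfl, if_neg h00.symm, if_neg h01.symm]
    ring
  · by_cases h1 : m = Finsupp.single 0 1
    · rw [h1, if_neg h00, if_pos rfl, if_neg h11.symm]
      ring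
    · by_cases h2 : m = Finsupp.single 1 1
      · rw [h2, if_neg h01, if_neg h11, if_pos rfl]
        ring
      · rw [if_neg (Ne.symm h0), if_neg (Ne.symm h1), if_neg (Ne.symm h2)]
        by_contra h3
        have h4 : coeff m p ≠ 0 := by
          intro h5
          apply h3
          rw [h5]
          ring
        have h5 := hp m h4
        have h6 : ¬ 2 ≤ m 0 + m 1 := fun h => absurd h5 (not_le.2 (position_gt h))
        have h7 : m = mm (m 0) (m 1) := (mm_self m).symm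
        have h8 : (m 0 = 0 ∧ m 1 = 0) ∨ (m 0 = 1 ∧ m 1 = 0) ∨ (m 0 = 0 ∧ m 1 = 1) := by omega
        rcases h8 with ⟨ha, hb⟩ | ⟨ha, hb⟩ | ⟨ha, hb⟩
        · apply h0
          rw [h7, ha, hb, mm]; simp
        · apply h1
          rw [h7, ha, hb, mm]; simp
        · apply h2
          rw [h7, ha, hb, mm]; simp

/-- **The weak Shanks conjecture on the bidisk is false.** There are a polynomial `f` without zeros
on the closed bidisk and an index `n` such that `1 / f` has an `n`-th optimal polynomial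
approximant in `H²(𝔻²)` and each such approximant vanishes at a point of the open bidisk. -/
theorem result : ∃ (f : MvPolynomial (Fin 2) ℂ) (n : ℕ),
    (∀ z : Fin 2 → ℂ, (∀ i, ‖z i‖ ≤ 1) → eval z f ≠ 0) ∧
    (∃ q, IsApproximant f n q) ∧
    ∀ q, IsApproximant f n q → ∃ z : Fin 2 → ℂ, (∀ i, ‖z i‖ < 1) ∧ eval z q = 0 := by
  have hQ : ∀ a b c : ℂ, Q a b c =
      Q (52947 / 8330305) (-(26820 / 8330305)) (-(26820 / 8330305)) +
        R (a - 52947 / 8330305) (b + 26820 / 8330305) (c + 26820 / 8330305) := by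
    intro a b c
    rw [← Q_eq]
    congr 1 <;> ring
  refine ⟨f, 2, fun z hz => f_ne hz, ?_, ?_⟩
  · refine ⟨lin (52947 / 8330305) (-(26820 / 8330305)) (-(26820 / 8330305)), inP_lin _ _ _, ?_⟩
    intro p hp
    rw [eq_lin hp, normSq_lin, normSq_lin, hQ (coeff 0 p)]
    have := R_nonneg (coeff 0 p - 52947 / 8330305)
      (coeff (Finsupp.single 0 1) p + 26820 / 8330305)
      (coeff (Finsupp.single 1 1) p + 26820 / 8330305)
    linarith
  · rintro q ⟨hq, hmin⟩
    have h1 := hmin (lin (52947 / 8330305) (-(26820 / 8330305)) (-(26820 / 8330305)))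
      (inP_lin _ _ _)
    have hq' := eq_lin hq
    obtain ⟨a, ha⟩ : ∃ a, a = coeff 0 q := ⟨_, rfl⟩
    obtain ⟨b, hb⟩ : ∃ b, b = coeff (Finsupp.single 0 1) q := ⟨_, rfl⟩
    obtain ⟨c, hc⟩ : ∃ c, c = coeff (Finsupp.single 1 1) q := ⟨_, rfl⟩
    rw [← ha, ← hb, ← hc] at hq'
    rw [hq', normSq_lin, normSq_lin, hQ a b c] at h1
    have h2 : R (a - 52947 / 8330305) (b + 26820 / 8330305) (c + 26820 / 8330305) = 0 :=
      le_antisymm (by linarith) (R_nonneg _ _ _)
    obtain ⟨h3, h4, h5⟩ := R_eq_zero h2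
    refine ⟨fun _ => ((5883 / 5960 : ℝ) : ℂ), fun i => ?_, ?_⟩
    · rw [Complex.norm_real, Real.norm_of_nonneg (by norm_num)]
      norm_num
    · rw [hq', lin]
      simp only [map_add, map_mul, eval_C, eval_X]
      have h6 : a = 52947 / 8330305 := by linear_combination h3
      have h7 : b = -(26820 / 8330305) := by linear_combination h4
      have h8 : c = -(26820 / 8330305) := by linear_combination h5
      rw [h6, h7, h8]
      push_cast
      norm_num

end Pool.Agent.Results.MP_52e642_an.WeakShanksFails
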